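import Pool.Agent.Helper22.Bil.BaseA

set_option autoImplicit false

/-!
BIL-BASE: the base table by string construction (MP_190632_an).
-/

namespace Pool.Agent.Helper58.Bil

open Real Set Filter Topology

/-- the caustic -/
noncomputable def hS (b : ℝ → ℝ) (κ ψ : ℝ) : ℝ := 1 + κ * b ψ

/-- the table -/
noncomputable def HS (b : ℝ → ℝ) (κ Q θ : ℝ) : ℝ :=
  (2 + κ * (b (θ + dS b κ Q θ) + b (θ - dS b κ Q θ))) / (2 * cos (dS b κ Q θ))

section par
variable {b : ℝ → ℝ} {C κ Q : ℝ}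

theorem BPar.dHas (h : BPar b C κ Q) (θ : ℝ) :
    HasDerivAt (dS b κ Q) (deriv (dS b κ Q) θ) θ :=
  ((h.dsm.differentiable (by simp)) θ).hasDerivAt

theorem BPar.Hsm (h : BPar b C κ Q) : ContDiff ℝ ((⊤ : ℕ∞) : WithTop ℕ∞) (HS b κ Q) := by
  apply ContDiff.div
  · exact contDiff_const.add (contDiff_const.mul
      ((h.bump.sm.comp (contDiff_id.add h.dsm)).add (h.bump.sm.comp (contDiff_id.sub h.dsm))))
  · exact contDiff_const.mul (Real.contDiff_cos.comp h.dsm)
  · intro θ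
    exact mul_ne_zero two_ne_zero (h.cos_ne (h.dmem θ))

theorem BPar.hsm (h : BPar b C κ Q) : ContDiff ℝ ((⊤ : ℕ∞) : WithTop ℕ∞) (hS b κ) :=
  contDiff_const.add (contDiff_const.mul h.bump.sm)

theorem BPar.sin_ne (_h : BPar b C κ Q) {D : ℝ} (hD : D ∈ Icc (π / 6) (π / 3)) : sin D ≠ 0 := by
  have := (bs_trig hD).1
  intro h0
  rw [h0] at this
  norm_num at this

theorem BPar.bP (h : BPar b C κ Q) (θ : ℝ) :
    HasDerivAt (fun θ => b (θ + dS b κ Q θ))
      (deriv b (θ + dS b κ Q θ) * (1 + deriv (dS b κ Q) θ)) θ :=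
  ((h.bump.sm.differentiable (by simp)) _).hasDerivAt.comp θ ((hasDerivAt_id θ).add (h.dHas θ))

theorem BPar.bM (h : BPar b C κ Q) (θ : ℝ) :
    HasDerivAt (fun θ => b (θ - dS b κ Q θ))
      (deriv b (θ - dS b κ Q θ) * (1 - deriv (dS b κ Q) θ)) θ :=
  ((h.bump.sm.differentiable (by simp)) _).hasDerivAt.comp θ ((hasDerivAt_id θ).sub (h.dHas θ))

theorem BPar.Hderiv (h : BPar b C κ Q) (θ : ℝ) :
    HasDerivAt (HS b κ Q)
      (κ * (b (θ + dS b κ Q θ) - b (θ - dS b κ Q θ)) / (2 * sin (dS b κ Q θ))) θ := by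
  have hc := h.cos_ne (h.dmem θ)
  have hs := h.sin_ne (h.dmem θ)
  have e1 : HasDerivAt (fun θ => 2 * cos (dS b κ Q θ))
      (2 * (-sin (dS b κ Q θ) * deriv (dS b κ Q) θ)) θ := ((h.dHas θ).cos).const_mul 2
  have e2 : HasDerivAt (fun θ => 2 + κ * (b (θ + dS b κ Q θ) + b (θ - dS b κ Q θ)))
      (κ * (deriv b (θ + dS b κ Q θ) * (1 + deriv (dS b κ Q) θ)
        + deriv b (θ - dS b κ Q θ) * (1 - deriv (dS b κ Q) θ))) θ :=
    (((h.bP θ).add (h.bM θ)).const_mul κ).const_add 2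
  have e3 := e2.div e1 (mul_ne_zero two_ne_zero hc)
  refine e3.congr_deriv ?_
  have key := h.deq θ
  rw [tan_eq_sin_div_cos] at key
  set D := dS b κ Q θ
  set D₁ := deriv (dS b κ Q) θ
  set x := b (θ + D)
  set y := b (θ - D)
  set x₁ := deriv b (θ + D)
  set y₁ := deriv b (θ - D)
  field_simp at key ⊢
  linear_combination key

theorem BPar.law (h : BPar b C κ Q) (θ : ℝ) :
    hS b κ (θ - dS b κ Q θ) = HS b κ Q θ * cos (dS b κ Q θ)
        - deriv (HS b κ Q) θ * sin (dS b κ Q θ) ∧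
      hS b κ (θ + dS b κ Q θ) = HS b κ Q θ * cos (dS b κ Q θ)
        + deriv (HS b κ Q) θ * sin (dS b κ Q θ) := by
  have hc := h.cos_ne (h.dmem θ)
  have hs := h.sin_ne (h.dmem θ)
  rw [(h.Hderiv θ).deriv]
  simp only [hS, HS]
  constructor <;> field_simp <;> ring

theorem BPar.Hderiv2 (h : BPar b C κ Q) (θ : ℝ) : |deriv (deriv (HS b κ Q)) θ| ≤ 1 / 100 := by
  have hd1 : deriv (HS b κ Q)
      = fun θ => κ * (b (θ + dS b κ Q θ) - b (θ - dS b κ Q θ)) / (2 * sin (dS b κ Q θ)) := by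
    funext θ
    exact (h.Hderiv θ).deriv
  obtain ⟨s1, c1, c2, -, -⟩ := bs_trig (h.dmem θ)
  obtain ⟨r1, r2⟩ := bs_sqrt3
  have hs := h.sin_ne (h.dmem θ)
  have e1 : HasDerivAt (fun θ => 2 * sin (dS b κ Q θ))
      (2 * (cos (dS b κ Q θ) * deriv (dS b κ Q) θ)) θ := ((h.dHas θ).sin).const_mul 2
  have e2 : HasDerivAt (fun θ => κ * (b (θ + dS b κ Q θ) - b (θ - dS b κ Q θ)))
      (κ * (deriv b (θ + dS b κ Q θ) * (1 + deriv (dS b κ Q) θ)
        - deriv b (θ - dS b κ Q θ) * (1 - deriv (dS b κ Q) θ))) θ :=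
    ((h.bP θ).sub (h.bM θ)).const_mul κ
  have e3 := (e2.div e1 (mul_ne_zero two_ne_zero hs)).deriv
  have e4 : ((fun θ => κ * (b (θ + dS b κ Q θ) - b (θ - dS b κ Q θ))) /
      fun θ => 2 * sin (dS b κ Q θ))
      = fun θ => κ * (b (θ + dS b κ Q θ) - b (θ - dS b κ Q θ)) / (2 * sin (dS b κ Q θ)) := rfl
  rw [e4] at e3
  rw [hd1, e3]
  have a1 := h.kb (θ + dS b κ Q θ)
  have a2 := h.kb (θ - dS b κ Q θ)
  have a3 := h.kb1 (θ + dS b κ Q θ)
  have a4 := h.kb1 (θ - dS b κ Q θ)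
  have a5 := h.dd_le θ
  have s2 : sin (dS b κ Q θ) ≤ 1 := sin_le_one _
  have c3 : cos (dS b κ Q θ) ≤ 1 := cos_le_one _
  generalize dS b κ Q θ = D at *
  generalize deriv (dS b κ Q) θ = D₁ at *
  generalize b (θ + D) = x at *
  generalize b (θ - D) = y at *
  generalize deriv b (θ + D) = x₁ at *
  generalize deriv b (θ - D) = y₁ at *
  have b1 : |κ * (x₁ * (1 + D₁) - y₁ * (1 - D₁))| ≤ 3 / 1000 := by
    have e : κ * (x₁ * (1 + D₁) - y₁ * (1 - D₁))
        = (κ * x₁) * (1 + D₁) - (κ * y₁) * (1 - D₁) := by ring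
    rw [e]
    have f1 : |(κ * x₁) * (1 + D₁)| ≤ 1 / 1000 * (51 / 50) := by
      rw [abs_mul]
      apply mul_le_mul a3 _ (abs_nonneg _) (by norm_num)
      rw [abs_le] at a5 ⊢
      constructor <;> linarith
    have f2 : |(κ * y₁) * (1 - D₁)| ≤ 1 / 1000 * (51 / 50) := by
      rw [abs_mul]
      apply mul_le_mul a4 _ (abs_nonneg _) (by norm_num)
      rw [abs_le] at a5 ⊢
      constructor <;> linarith
    refine (abs_sub _ _).trans ?_
    norm_num at f1 f2 ⊢
    linarith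
  have b2 : |κ * (x - y)| ≤ 1 / 1000 := by
    rw [abs_le]
    constructor <;> linarith
  have b3 : |2 * (cos D * D₁)| ≤ 1 / 25 := by
    rw [abs_mul, abs_mul, abs_of_pos (by norm_num : (0 : ℝ) < 2), abs_of_pos (by linarith)]
    have := mul_le_mul c3 a5 (abs_nonneg _) (by norm_num)
    linarith
  have hden : 1 ≤ (2 * sin D) ^ 2 := by
    have : 1 ≤ 2 * sin D := by linarith
    nlinarith
  rw [abs_div, abs_of_pos (by positivity : 0 < (2 * sin D) ^ 2), div_le_iff₀ (by positivity)]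
  have g1 : |κ * (x₁ * (1 + D₁) - y₁ * (1 - D₁)) * (2 * sin D)| ≤ 3 / 1000 * 2 := by
    rw [abs_mul]
    apply mul_le_mul b1 _ (abs_nonneg _) (by norm_num)
    rw [abs_of_pos (by linarith)]
    linarith
  have g2 : |κ * (x - y) * (2 * (cos D * D₁))| ≤ 1 / 1000 * (1 / 25) := by
    rw [abs_mul]
    exact mul_le_mul b2 b3 (abs_nonneg _) (by norm_num)
  refine (abs_sub _ _).trans ?_
  norm_num at g1 g2 ⊢
  linarith

theorem BPar.Hge (h : BPar b C κ Q) (θ : ℝ) : 23 / 20 ≤ HS b κ Q θ := by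
  obtain ⟨s1, c1, c2, -, -⟩ := bs_trig (h.dmem θ)
  obtain ⟨r1, r2⟩ := bs_sqrt3
  have a1 := h.kb (θ + dS b κ Q θ)
  have a2 := h.kb (θ - dS b κ Q θ)
  unfold HS
  rw [le_div_iff₀ (by linarith)]
  nlinarith

theorem BPar.win (h : BPar b C κ Q) {θ D : ℝ} (hD : D ∈ Icc (π / 6) (π / 3))
    (h1 : b (θ + D) = 0) (h2 : b (θ - D) = 0)
    (h3 : 2 * tan D - (2 * D + κ * (bF b (θ + D) - bF b (θ - D))) - Q = 0) :
    HS b κ Q θ = 1 / cos D ∧ dS b κ Q θ = D := by
  have e : D = dS b κ Q θ := by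
    apply (h.zer θ).2.2.2 D hD
    simp only [Ph, h1, h2]
    linarith
  refine ⟨?_, e.symm⟩
  unfold HS
  rw [← e, h1, h2]
  have := h.cos_ne hD
  field_simp
  norm_num

end par

/-- `tan x - x` -/
noncomputable def tf (x : ℝ) : ℝ := tan x - x

theorem tf_mono {x y : ℝ} (hx : 0 < x) (hxy : x < y) (hy : y < π / 2) : tf x < tf y := by
  have h : StrictMonoOn tf (Ioo 0 (π / 2)) := by
    apply strictMonoOn_of_deriv_pos (convex_Ioo _ _)
    · intro z hz
      have hc : cos z ≠ 0 := (cos_pos_of_mem_Ioo ⟨by linarith [hz.1, pi_pos], hz.2⟩).ne'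
      exact ((Real.continuousAt_tan.2 hc).sub continuousAt_id).continuousWithinAt
    · intro z hz
      rw [interior_Ioo] at hz
      have hc : 0 < cos z := cos_pos_of_mem_Ioo ⟨by linarith [hz.1, pi_pos], hz.2⟩
      have e : HasDerivAt tf (1 / cos z ^ 2 - 1) z :=
        (Real.hasDerivAt_tan hc.ne').sub (hasDerivAt_id z)
      rw [e.deriv, one_div_cos_sq hc.ne']
      have ht : 0 < tan z := tan_pos_of_pos_of_lt_pi_div_two hz.1 hz.2
      have := pow_pos ht 2
      linarith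
  exact h ⟨hx, by linarith⟩ ⟨by linarith, hy⟩ hxy

theorem base_table : ∃ (α c : ℝ) (H h d : ℝ → ℝ), Base α c H h d := by
  obtain ⟨b, C, hb⟩ := exists_baseBump
  have hpi := pi_gt_d2
  have hpi' := pi_lt_d2
  set J : ℝ := ∫ x in (-(1 / 10))..(1 / 10), b x with hJ
  have hJ0 : 0 < J := hb.J
  have hC0 : 0 < C := lt_of_lt_of_le one_pos hb.C1
  -- choice of the parameters
  set Kf : ℝ → ℝ := fun s => 2 * (tf (π / 4 + s) - tf (π / 4 - s)) / J with hKf
  set Qf : ℝ → ℝ := fun s => 2 * tf (π / 4 - s) with hQf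
  have htc : ContinuousAt tf (π / 4) := by
    have hc : cos (π / 4) ≠ 0 := (cos_pos_of_mem_Ioo ⟨by linarith, by linarith⟩).ne'
    exact (Real.continuousAt_tan.2 hc).sub continuousAt_id
  have hp : ContinuousAt (fun s : ℝ => tf (π / 4 + s)) 0 := by
    apply ContinuousAt.comp (g := tf) (f := fun s : ℝ => π / 4 + s)
    · simpa using htc
    · fun_prop
  have hm : ContinuousAt (fun s : ℝ => tf (π / 4 - s)) 0 := by
    apply ContinuousAt.comp (g := tf) (f := fun s : ℝ => π / 4 - s)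
    · simpa using htc
    · fun_prop
  have hK : ContinuousAt (fun s => Kf s * C) 0 :=
    (((hp.sub hm).const_mul 2).div_const J).mul_const C
  have hQ : ContinuousAt Qf 0 := hm.const_mul 2
  have ev1 : ∀ᶠ s in 𝓝 (0 : ℝ), Kf s * C < 1 / 1000 := by
    apply hK.eventually_lt_const
    simp [hKf]
  have hQ0 : Qf 0 = 2 * (1 - π / 4) := by
    simp [hQf, tf]
  have ev2 : ∀ᶠ s in 𝓝 (0 : ℝ), 3 / 10 < Qf s := by
    apply hQ.eventually_const_lt
    rw [hQ0]
    linarith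
  have ev3 : ∀ᶠ s in 𝓝 (0 : ℝ), Qf s < 1 / 2 := by
    apply hQ.eventually_lt_const
    rw [hQ0]
    linarith
  have ev4 : ∀ᶠ s in 𝓝 (0 : ℝ), s < 1 / 100 := eventually_lt_nhds (by norm_num)
  have ev : ∀ᶠ s in 𝓝[>] (0 : ℝ), (Kf s * C < 1 / 1000 ∧ 3 / 10 < Qf s ∧ Qf s < 1 / 2 ∧
      s < 1 / 100) ∧ 0 < s :=
    ((ev1.and (ev2.and (ev3.and ev4))).filter_mono nhdsWithin_le_nhds).and self_mem_nhdsWithin
  obtain ⟨s, ⟨hs1, hs2, hs3, hs4⟩, hs0⟩ := ev.exists
  set α : ℝ := π / 4 + s with hα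
  have hal : al2 α = π / 4 - s := by
    unfold al2
    rw [hα]
    ring
  set κ := Kf s with hκ
  set Q := Qf s with hQdef
  have hκ0 : 0 < κ := by
    rw [hκ, hKf]
    apply div_pos _ hJ0
    have := tf_mono (x := π / 4 - s) (y := π / 4 + s) (by linarith) (by linarith) (by linarith)
    linarith
  have hP : BPar b C κ Q := ⟨hb, hκ0.le, hs1.le, hs2.le, hs3.le⟩
  have hαm : α ∈ Icc (π / 6) (π / 3) := ⟨by linarith, by linarith⟩
  have hαm2 : al2 α ∈ Icc (π / 6) (π / 3) := by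
    rw [hal]
    exact ⟨by linarith, by linarith⟩
  have hbc := hb.sm.continuous
  have hii : ∀ x y : ℝ, IntervalIntegrable b MeasureTheory.volume x y :=
    fun x y => hbc.intervalIntegrable _ _
  have hz : ∀ x y : ℝ, 1 / 10 ≤ x → x ≤ y → y ≤ π - 1 / 10 → ∫ z in x..y, b z = 0 := by
    intro x y h1 h2 h3
    rw [intervalIntegral.integral_congr (g := fun _ => 0), intervalIntegral.integral_zero]
    intro z hz
    rw [uIcc_of_le h2] at hz
    exact hb.ze z ⟨by linarith [hz.1], by linarith [hz.2]⟩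
  have hz' : ∀ x y : ℝ, -(π - 1 / 10) ≤ x → x ≤ y → y ≤ -(1 / 10) → ∫ z in x..y, b z = 0 := by
    intro x y h1 h2 h3
    rw [intervalIntegral.integral_congr (g := fun _ => 0), intervalIntegral.integral_zero]
    intro z hz
    rw [uIcc_of_le h2] at hz
    show b z = 0
    rw [← hb.ev]
    exact hb.ze (-z) ⟨by linarith [hz.2], by linarith [hz.1]⟩
  refine ⟨α, 1 / 20, HS b κ Q, hS b κ, dS b κ Q, ?_⟩
  have hper := hP.dper
  have hbper : ∀ x, b (x + π) = b x := hb.per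
  refine ⟨by linarith, by linarith, by norm_num, hP.Hsm, hP.hsm, ?_, ?_, hper, ?_, ?_, hP.dev,
    ?_, ?_, fun θ => (hP.law θ).1, fun θ => (hP.law θ).2, ?_, ?_, ?_, ?_, ?_, ?_, ?_, ?_, ?_⟩
  · intro θ
    have e0 : dS b κ Q (θ + π) = dS b κ Q θ := hper θ
    simp only [HS, e0]
    rw [show θ + π + dS b κ Q θ = (θ + dS b κ Q θ) + π by ring,
      show θ + π - dS b κ Q θ = (θ - dS b κ Q θ) + π by ring, hbper, hbper]
  · intro θ
    simp only [hS, hbper]
  · intro θ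
    simp only [HS, hP.dev]
    rw [show -θ + dS b κ Q θ = -(θ - dS b κ Q θ) by ring,
      show -θ - dS b κ Q θ = -(θ + dS b κ Q θ) by ring, hb.ev, hb.ev, add_comm (b _)]
  · intro θ
    simp only [hS, hb.ev]
  · intro θ
    have := (hP.dmem θ).1
    linarith
  · intro θ
    have := (hP.dmem θ).2
    linarith
  · apply strictMono_of_deriv_pos
    intro θ
    have e := ((hasDerivAt_id θ).sub (hP.dHas θ)).deriv
    have e' : deriv (fun θ => θ - dS b κ Q θ) θ = 1 - deriv (dS b κ Q) θ := e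
    rw [e']
    have := abs_le.1 (hP.dd_le θ)
    linarith
  · apply strictMono_of_deriv_pos
    intro θ
    have e := ((hasDerivAt_id θ).add (hP.dHas θ)).deriv
    have e' : deriv (fun θ => θ + dS b κ Q θ) θ = 1 + deriv (dS b κ Q) θ := e
    rw [e']
    have := abs_le.1 (hP.dd_le θ)
    linarith
  · intro ψ hψ
    simp only [hS, hb.ze ψ hψ, mul_zero, add_zero]
  · intro θ hθ
    apply hP.win hαm
    · exact hb.ze _ ⟨by linarith [hθ.1], by linarith [hθ.2]⟩
    · rw [← hb.ev]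
      exact hb.ze _ ⟨by linarith [hθ.2], by linarith [hθ.1]⟩
    · rw [bF_sub hbc, ← intervalIntegral.integral_add_adjacent_intervals (hii (θ - α) (-(1 / 10)))
        (hii (-(1 / 10)) (θ + α)), ← intervalIntegral.integral_add_adjacent_intervals
        (hii (-(1 / 10)) (1 / 10)) (hii (1 / 10) (θ + α)),
        hz _ _ le_rfl (by linarith [hθ.1]) (by linarith [hθ.2]),
        hz' _ _ (by linarith [hθ.1]) (by linarith [hθ.2]) le_rfl, ← hJ, zero_add, add_zero]
      have e1 : κ * J = 2 * (tf (π / 4 + s) - tf (π / 4 - s)) := by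
        rw [hκ, hKf]
        field_simp
      have e2 : Q = 2 * tf (π / 4 - s) := rfl
      rw [e1, e2]
      simp only [tf]
      rw [hα]
      ring
  · intro θ hθ
    have hg := hal
    apply hP.win hαm2
    · exact hb.ze _ ⟨by linarith [hθ.1], by linarith [hθ.2]⟩
    · exact hb.ze _ ⟨by linarith [hθ.1], by linarith [hθ.2]⟩
    · rw [bF_sub hbc, hz _ _ (by linarith [hθ.1]) (by linarith) (by linarith [hθ.2])]
      have e2 : Q = 2 * tf (π / 4 - s) := rfl
      rw [e2, hal]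
      simp only [tf]
      ring
  · intro θ
    have h1 := hP.Hge θ
    have h2 := abs_le.1 (hP.Hderiv2 θ)
    linarith
  · intro θ
    have e1 : deriv (hS b κ) = fun θ => κ * deriv b θ := by
      funext x
      exact ((((hb.sm.differentiable (by simp)) x).hasDerivAt.const_mul κ).const_add 1).deriv
    have hb1 : ContDiff ℝ ((⊤ : ℕ∞) : WithTop ℕ∞) (deriv b) := (contDiff_infty_iff_deriv.1 hb.sm).2
    have e2 : deriv (deriv (hS b κ)) θ = κ * deriv (deriv b) θ := by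
      rw [e1]
      exact (((hb1.differentiable (by simp)) θ).hasDerivAt.const_mul κ).deriv
    rw [e2]
    have h1 := (hP.kb θ).1
    have h2 := abs_le.1 (hP.kb2 θ)
    simp only [hS]
    linarith
  · intro θ
    have h1 := (hP.kb θ).2
    have h2 := hP.Hge θ
    simp only [hS]
    linarith
  · intro θ
    have h1 := (hP.kb θ).1
    simp only [hS]
    linarith

end Pool.Agent.Helper58.Bil
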