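import Pool.Agent.Helper95.Bil.ToolsB
import Pool.Agent.Helper58.Bil.GeoDefs

set_option autoImplicit false

/-!
BIL-BASE, part A: the periodic bump and the string equation (MP_190632_an).
-/

namespace Pool.Agent.Helper58.Bil

open Real Set Filter Topology

/-- Properties of the periodic bump. -/
structure BaseBump (b : ℝ → ℝ) (C : ℝ) : Prop where
  sm : ContDiff ℝ ((⊤ : ℕ∞) : WithTop ℕ∞) b
  per : Function.Periodic b π
  ev : ∀ x, b (-x) = b x
  nn : ∀ x, 0 ≤ b x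
  ze : ∀ x ∈ Icc (1 / 10) (π - 1 / 10), b x = 0
  C1 : 1 ≤ C
  B0 : ∀ x, b x ≤ C
  B1 : ∀ x, |deriv b x| ≤ C
  B2 : ∀ x, |deriv (deriv b) x| ≤ C
  J : 0 < ∫ x in (-(1 / 10))..(1 / 10), b x

theorem bs_per_bdd {f : ℝ → ℝ} (hf : Continuous f) (hp : Function.Periodic f π) :
    ∃ C, ∀ x, |f x| ≤ C := by
  obtain ⟨C, hC⟩ := (hp.isBounded_of_continuous pi_ne_zero hf).exists_norm_le
  exact ⟨C, fun x => hC _ (mem_range_self x)⟩

theorem bs_per_deriv {f : ℝ → ℝ} (hp : Function.Periodic f π) : Function.Periodic (deriv f) π := by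
  intro x
  rw [← deriv_comp_add_const]
  congr 1
  funext y
  exact hp y

theorem exists_baseBump : ∃ (b : ℝ → ℝ) (C : ℝ), BaseBump b C := by
  set b : ℝ → ℝ := fun ψ => expNegInvGlue (sin (1 / 10) ^ 2 - sin ψ ^ 2) with hb
  have hpi := pi_gt_three
  have hsm : ContDiff ℝ ((⊤ : ℕ∞) : WithTop ℕ∞) b :=
    expNegInvGlue.contDiff.comp (contDiff_const.sub (Real.contDiff_sin.pow 2))
  have hper : Function.Periodic b π := by
    intro x
    simp [hb, Real.sin_add_pi]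
  have h1 : ContDiff ℝ ((⊤ : ℕ∞) : WithTop ℕ∞) (deriv b) := (contDiff_infty_iff_deriv.1 hsm).2
  have h2 : ContDiff ℝ ((⊤ : ℕ∞) : WithTop ℕ∞) (deriv (deriv b)) :=
    (contDiff_infty_iff_deriv.1 h1).2
  obtain ⟨C0, hC0⟩ := bs_per_bdd hsm.continuous hper
  obtain ⟨C1, hC1⟩ := bs_per_bdd h1.continuous (bs_per_deriv hper)
  obtain ⟨C2, hC2⟩ := bs_per_bdd h2.continuous (bs_per_deriv (bs_per_deriv hper))
  have hs : 0 < sin (1 / 10 : ℝ) := sin_pos_of_pos_of_lt_pi (by norm_num) (by linarith)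
  refine ⟨b, max 1 (max C0 (max C1 C2)), hsm, hper, ?_, ?_, ?_, le_max_left _ _, ?_, ?_, ?_, ?_⟩
  · intro x
    simp [hb]
  · intro x
    exact expNegInvGlue.nonneg _
  · intro x hx
    apply expNegInvGlue.zero_of_nonpos
    have : sin (1 / 10) ≤ sin x := by
      rcases le_total x (π / 2) with h | h
      · exact sin_le_sin_of_le_of_le_pi_div_two (by linarith) h hx.1
      · rw [← sin_pi_sub x]
        exact sin_le_sin_of_le_of_le_pi_div_two (by linarith) (by linarith) (by linarith [hx.2])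
    have := pow_le_pow_left₀ hs.le this 2
    linarith
  · intro x
    exact (le_abs_self _).trans ((hC0 x).trans ((le_max_left _ _).trans (le_max_right _ _)))
  · intro x
    exact (hC1 x).trans ((le_max_left _ _).trans ((le_max_right _ _).trans (le_max_right _ _)))
  · intro x
    exact (hC2 x).trans ((le_max_right _ _).trans ((le_max_right _ _).trans (le_max_right _ _)))
  · apply intervalIntegral.intervalIntegral_pos_of_pos_on (hsm.continuous.intervalIntegrable _ _)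
    · intro x hx
      apply expNegInvGlue.pos_of_pos
      have e1 : sin x < sin (1 / 10) :=
        sin_lt_sin_of_lt_of_le_pi_div_two (by linarith [hx.1]) (by linarith) hx.2
      have e2 : -sin (1 / 10) < sin x := by
        rw [← sin_neg]
        exact sin_lt_sin_of_lt_of_le_pi_div_two (by linarith) (by linarith [hx.2]) hx.1
      have := sq_lt_sq' e2 e1
      linarith
    · norm_num

/-- primitive -/
noncomputable def bF (b : ℝ → ℝ) (ψ : ℝ) : ℝ := ∫ x in (0 : ℝ)..ψ, b x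

theorem bF_hasDerivAt {b : ℝ → ℝ} (hb : Continuous b) (x : ℝ) : HasDerivAt (bF b) (b x) x :=
  intervalIntegral.integral_hasDerivAt_right (hb.intervalIntegrable _ _)
    (hb.stronglyMeasurableAtFilter _ _) hb.continuousAt

theorem bF_contDiff {b : ℝ → ℝ} (hb : ContDiff ℝ ((⊤ : ℕ∞) : WithTop ℕ∞) b) :
    ContDiff ℝ ((⊤ : ℕ∞) : WithTop ℕ∞) (bF b) := by
  rw [contDiff_infty_iff_deriv]
  refine ⟨fun x => (bF_hasDerivAt hb.continuous x).differentiableAt, ?_⟩
  have : deriv (bF b) = b := funext fun x => (bF_hasDerivAt hb.continuous x).deriv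
  rw [this]
  exact hb

theorem bF_sub {b : ℝ → ℝ} (hb : Continuous b) (x y : ℝ) :
    bF b y - bF b x = ∫ z in x..y, b z :=
  intervalIntegral.integral_interval_sub_left (hb.intervalIntegrable _ _)
    (hb.intervalIntegrable _ _)

/-- The string function. -/
noncomputable def Ph (b : ℝ → ℝ) (κ Q : ℝ) (z : ℝ × ℝ) : ℝ :=
  tan z.1 * (2 + κ * (b (z.2 + z.1) + b (z.2 - z.1)))
    - (2 * z.1 + κ * (bF b (z.2 + z.1) - bF b (z.2 - z.1))) - Q

theorem one_div_cos_sq {x : ℝ} (h : cos x ≠ 0) : 1 / cos x ^ 2 = 1 + tan x ^ 2 := by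
  rw [← Real.inv_one_add_tan_sq h, one_div, inv_inv]

theorem Ph_hasDerivAt {b : ℝ → ℝ} (hb : ContDiff ℝ ((⊤ : ℕ∞) : WithTop ℕ∞) b) (κ Q : ℝ)
    {D T : ℝ → ℝ} {D₁ T₁ x : ℝ} (hD : HasDerivAt D D₁ x) (hT : HasDerivAt T T₁ x)
    (hc : cos (D x) ≠ 0) :
    HasDerivAt (fun y => Ph b κ Q (D y, T y))
      ((1 + tan (D x) ^ 2) * D₁ * (2 + κ * (b (T x + D x) + b (T x - D x)))
        + tan (D x) * (κ * (deriv b (T x + D x) * (T₁ + D₁) + deriv b (T x - D x) * (T₁ - D₁)))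
        - (2 * D₁ + κ * (b (T x + D x) * (T₁ + D₁) - b (T x - D x) * (T₁ - D₁)))) x := by
  have hbd : Differentiable ℝ b := hb.differentiable (by simp)
  have e1 : HasDerivAt (fun y => tan (D y)) ((1 + tan (D x) ^ 2) * D₁) x := by
    rw [← one_div_cos_sq hc]
    exact (Real.hasDerivAt_tan hc).comp x hD
  have e2 : HasDerivAt (fun y => b (T y + D y)) (deriv b (T x + D x) * (T₁ + D₁)) x :=
    (hbd _).hasDerivAt.comp x (hT.add hD)
  have e3 : HasDerivAt (fun y => b (T y - D y)) (deriv b (T x - D x) * (T₁ - D₁)) x :=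
    (hbd _).hasDerivAt.comp x (hT.sub hD)
  have e4 : HasDerivAt (fun y => bF b (T y + D y)) (b (T x + D x) * (T₁ + D₁)) x :=
    (bF_hasDerivAt hb.continuous _).comp x (hT.add hD)
  have e5 : HasDerivAt (fun y => bF b (T y - D y)) (b (T x - D x) * (T₁ - D₁)) x :=
    (bF_hasDerivAt hb.continuous _).comp x (hT.sub hD)
  have := ((e1.mul ((hasDerivAt_const x 2).add ((e2.add e3).const_mul κ))).sub
    ((hD.const_mul 2).add ((e4.sub e5).const_mul κ))).sub (hasDerivAt_const x Q)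
  refine this.congr_deriv ?_
  simp only [Pi.add_apply]
  ring

theorem Ph_smAt {b : ℝ → ℝ} (hb : ContDiff ℝ ((⊤ : ℕ∞) : WithTop ℕ∞) b) (κ Q : ℝ)
    {z : ℝ × ℝ} (hz : cos z.1 ≠ 0) : SmAt (Ph b κ Q) z := by
  have : ∀ᶠ w : ℝ × ℝ in 𝓝 z, cos w.1 ≠ 0 :=
    ((Real.continuous_cos.comp continuous_fst).continuousAt).eventually_ne hz
  filter_upwards [this] with w hw
  have e1 : ContDiffAt ℝ ((⊤ : ℕ∞) : WithTop ℕ∞) (fun w : ℝ × ℝ => tan w.1) w :=
    ContDiffAt.comp (f := fun w : ℝ × ℝ => w.1) (g := tan) w (Real.contDiffAt_tan.2 hw)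
      contDiffAt_fst
  have s1 : ContDiff ℝ ((⊤ : ℕ∞) : WithTop ℕ∞) (fun w : ℝ × ℝ => w.2 + w.1) :=
    contDiff_snd.add contDiff_fst
  have s2 : ContDiff ℝ ((⊤ : ℕ∞) : WithTop ℕ∞) (fun w : ℝ × ℝ => w.2 - w.1) :=
    contDiff_snd.sub contDiff_fst
  have e2 : ContDiff ℝ ((⊤ : ℕ∞) : WithTop ℕ∞)
      (fun w : ℝ × ℝ => 2 + κ * (b (w.2 + w.1) + b (w.2 - w.1))) :=
    contDiff_const.add (contDiff_const.mul ((hb.comp s1).add (hb.comp s2)))
  have e3 : ContDiff ℝ ((⊤ : ℕ∞) : WithTop ℕ∞)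
      (fun w : ℝ × ℝ => 2 * w.1 + κ * (bF b (w.2 + w.1) - bF b (w.2 - w.1))) :=
    (contDiff_const.mul contDiff_fst).add
      (contDiff_const.mul (((bF_contDiff hb).comp s1).sub ((bF_contDiff hb).comp s2)))
  exact ((e1.mul e2.contDiffAt).sub e3.contDiffAt).sub contDiffAt_const

/-- hypotheses on the parameters -/
structure BPar (b : ℝ → ℝ) (C κ Q : ℝ) : Prop where
  bump : BaseBump b C
  κ0 : 0 ≤ κ
  κC : κ * C ≤ 1 / 1000
  Q0 : 3 / 10 ≤ Q
  Q1 : Q ≤ 1 / 2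

theorem bs_trig {D : ℝ} (hD : D ∈ Icc (π / 6) (π / 3)) :
    1 / 2 ≤ sin D ∧ 1 / 2 ≤ cos D ∧ cos D ≤ √3 / 2 ∧ 1 / √3 ≤ tan D ∧ tan D ≤ √3 := by
  have hpi := pi_pos
  refine ⟨?_, ?_, ?_, ?_, ?_⟩
  · rw [← Real.sin_pi_div_six]
    exact sin_le_sin_of_le_of_le_pi_div_two (by linarith) (by linarith [hD.2]) hD.1
  · rw [← Real.cos_pi_div_three]
    exact cos_le_cos_of_nonneg_of_le_pi (by linarith [hD.1]) (by linarith) hD.2
  · rw [← Real.cos_pi_div_six]
    exact cos_le_cos_of_nonneg_of_le_pi (by linarith) (by linarith [hD.2]) hD.1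
  · rw [← Real.tan_pi_div_six]
    rcases eq_or_lt_of_le hD.1 with h | h
    · rw [h]
    · exact (tan_lt_tan_of_nonneg_of_lt_pi_div_two (by linarith) (by linarith [hD.2]) h).le
  · rw [← Real.tan_pi_div_three]
    rcases eq_or_lt_of_le hD.2 with h | h
    · rw [h]
    · exact (tan_lt_tan_of_nonneg_of_lt_pi_div_two (by linarith [hD.1]) (by linarith) h).le

theorem bs_sqrt3 : 1732 / 1000 < √3 ∧ √3 < 1733 / 1000 := by
  constructor
  · rw [Real.lt_sqrt (by norm_num)]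
    norm_num
  · rw [Real.sqrt_lt' (by norm_num)]
    norm_num

section par
variable {b : ℝ → ℝ} {C κ Q : ℝ}

theorem BPar.kb (h : BPar b C κ Q) (x : ℝ) : 0 ≤ κ * b x ∧ κ * b x ≤ 1 / 1000 :=
  ⟨mul_nonneg h.κ0 (h.bump.nn x),
    (mul_le_mul_of_nonneg_left (h.bump.B0 x) h.κ0).trans h.κC⟩

theorem BPar.kb1 (h : BPar b C κ Q) (x : ℝ) : |κ * deriv b x| ≤ 1 / 1000 := by
  rw [abs_mul, abs_of_nonneg h.κ0]
  exact (mul_le_mul_of_nonneg_left (h.bump.B1 x) h.κ0).trans h.κC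

theorem BPar.kb2 (h : BPar b C κ Q) (x : ℝ) : |κ * deriv (deriv b) x| ≤ 1 / 1000 := by
  rw [abs_mul, abs_of_nonneg h.κ0]
  exact (mul_le_mul_of_nonneg_left (h.bump.B2 x) h.κ0).trans h.κC

theorem BPar.kF (h : BPar b C κ Q) {x y : ℝ} (hxy : x ≤ y) :
    0 ≤ κ * (bF b y - bF b x) ∧ κ * (bF b y - bF b x) ≤ (y - x) / 1000 := by
  rw [bF_sub h.bump.sm.continuous]
  constructor
  · exact mul_nonneg h.κ0 (intervalIntegral.integral_nonneg hxy fun z _ => h.bump.nn z)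
  · have : ∫ z in x..y, b z ≤ ∫ z in x..y, C :=
      intervalIntegral.integral_mono_on hxy (h.bump.sm.continuous.intervalIntegrable _ _)
        intervalIntegrable_const fun z _ => h.bump.B0 z
    rw [intervalIntegral.integral_const, smul_eq_mul] at this
    calc κ * ∫ z in x..y, b z ≤ κ * ((y - x) * C) := mul_le_mul_of_nonneg_left this h.κ0
      _ = (y - x) * (κ * C) := by ring
      _ ≤ (y - x) * (1 / 1000) := mul_le_mul_of_nonneg_left h.κC (by linarith)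
      _ = (y - x) / 1000 := by ring

theorem BPar.derivD (h : BPar b C κ Q) {D : ℝ} (hD : D ∈ Icc (π / 6) (π / 3)) (θ : ℝ) :
    1 / 2 < tan D ^ 2 * (2 + κ * (b (θ + D) + b (θ - D)))
      + tan D * (κ * (deriv b (θ + D) - deriv b (θ - D))) := by
  obtain ⟨-, -, -, t1, t2⟩ := bs_trig hD
  obtain ⟨r1, r2⟩ := bs_sqrt3
  have t0 : 57 / 100 ≤ tan D := by
    refine le_trans ?_ t1
    rw [le_div_iff₀ (by positivity)]
    linarith
  have t3 : tan D ≤ 1733 / 1000 := t2.trans r2.le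
  have a1 := h.kb (θ + D)
  have a2 := h.kb (θ - D)
  have a3 := abs_le.1 (h.kb1 (θ + D))
  have a4 := abs_le.1 (h.kb1 (θ - D))
  have p1 : (57 / 100 : ℝ) ^ 2 ≤ tan D ^ 2 := pow_le_pow_left₀ (by norm_num) t0 2
  have p2 : (57 / 100 : ℝ) ^ 2 * 2 ≤ tan D ^ 2 * (2 + κ * (b (θ + D) + b (θ - D))) := by
    apply mul_le_mul p1 (by linarith) (by norm_num) (by positivity)
  have p3 : -(1733 / 1000 * (2 / 1000)) ≤ tan D * (κ * (deriv b (θ + D) - deriv b (θ - D))) := by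
    have : |tan D * (κ * (deriv b (θ + D) - deriv b (θ - D)))| ≤ 1733 / 1000 * (2 / 1000) := by
      rw [abs_mul, abs_of_nonneg (by linarith : (0 : ℝ) ≤ tan D)]
      apply mul_le_mul t3 _ (abs_nonneg _) (by norm_num)
      rw [abs_le]
      constructor <;> linarith
    exact (abs_le.1 this).1
  norm_num at p2 p3 ⊢
  linarith

theorem BPar.cos_ne (_h : BPar b C κ Q) {D : ℝ} (hD : D ∈ Icc (π / 6) (π / 3)) : cos D ≠ 0 := by
  have := (bs_trig hD).2.1
  intro h0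
  rw [h0] at this
  norm_num at this

theorem BPar.deriv_pos (h : BPar b C κ Q) {D : ℝ} (hD : D ∈ Icc (π / 6) (π / 3)) (θ : ℝ) :
    0 < deriv (fun D' => Ph b κ Q (D', θ)) D := by
  have e := Ph_hasDerivAt h.bump.sm κ Q (hasDerivAt_id D) (hasDerivAt_const D θ) (h.cos_ne hD)
  have e' := e.deriv
  simp only [id] at e'
  rw [e']
  have := h.derivD hD θ
  linarith

theorem BPar.left_neg (h : BPar b C κ Q) (θ : ℝ) : Ph b κ Q (π / 6, θ) < 0 := by
  obtain ⟨r1, r2⟩ := bs_sqrt3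
  have hpi := pi_gt_d2
  have hpi' := pi_lt_d2
  have a1 := h.kb (θ + π / 6)
  have a2 := h.kb (θ - π / 6)
  have a3 := (h.kF (x := θ - π / 6) (y := θ + π / 6) (by linarith)).1
  simp only [Ph, Real.tan_pi_div_six]
  have t1 : 1 / √3 ≤ 578 / 1000 := by
    rw [div_le_iff₀ (by positivity)]
    linarith
  have p1 : 1 / √3 * (2 + κ * (b (θ + π / 6) + b (θ - π / 6))) ≤ 578 / 1000 * (2 + 2 / 1000) := by
    apply mul_le_mul t1 (by linarith) (by linarith) (by norm_num)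
  have := h.Q0
  have p2 : (578 / 1000 : ℝ) * (2 + 2 / 1000) = 289289 / 250000 := by norm_num
  rw [p2] at p1
  linarith

theorem BPar.right_pos (h : BPar b C κ Q) (θ : ℝ) : 0 < Ph b κ Q (π / 3, θ) := by
  obtain ⟨r1, r2⟩ := bs_sqrt3
  have hpi := pi_gt_d2
  have hpi' := pi_lt_d2
  have a1 := h.kb (θ + π / 3)
  have a2 := h.kb (θ - π / 3)
  have a3 := (h.kF (x := θ - π / 3) (y := θ + π / 3) (by linarith)).2
  simp only [Ph, Real.tan_pi_div_three]
  have p1 : 1732 / 1000 * 2 ≤ √3 * (2 + κ * (b (θ + π / 3) + b (θ - π / 3))) := by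
    apply mul_le_mul r1.le (by linarith) (by norm_num) (by positivity)
  have := h.Q1
  norm_num at p1
  linarith

/-- the half angle -/
noncomputable def dS (b : ℝ → ℝ) (κ Q θ : ℝ) : ℝ := zer (Ph b κ Q) (π / 6) (π / 3) θ

theorem BPar.zer (h : BPar b C κ Q) (θ : ℝ) :
    SmAt (dS b κ Q) θ ∧ dS b κ Q θ ∈ Ioo (π / 6) (π / 3) ∧ Ph b κ Q (dS b κ Q θ, θ) = 0 ∧
      ∀ D ∈ Icc (π / 6) (π / 3), Ph b κ Q (D, θ) = 0 → D = dS b κ Q θ := by
  have hpi := pi_pos
  obtain ⟨h1, h2⟩ := SmAt.zer (Φ := Ph b κ Q) (a := π / 6) (b := π / 3) (by linarith) (p := θ)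
    (fun D hD => Ph_smAt h.bump.sm κ Q (h.cos_ne hD)) (fun D hD => h.deriv_pos hD θ)
    (h.left_neg θ) (h.right_pos θ)
  have h3 := h2.self_of_nhds
  exact ⟨h1, h3.1, h3.2.1, h3.2.2⟩

theorem BPar.dmem (h : BPar b C κ Q) (θ : ℝ) : dS b κ Q θ ∈ Icc (π / 6) (π / 3) :=
  Ioo_subset_Icc_self (h.zer θ).2.1

theorem BPar.dsm (h : BPar b C κ Q) : ContDiff ℝ ((⊤ : ℕ∞) : WithTop ℕ∞) (dS b κ Q) := by
  rw [contDiff_iff_contDiffAt]
  intro θ
  exact (h.zer θ).1.self_of_nhds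

theorem BPar.dper (h : BPar b C κ Q) : Function.Periodic (dS b κ Q) π := by
  intro θ
  apply zer_congr
  intro D _
  have hb : ∀ x, b (x + π) = b x := h.bump.per
  have e1 : b (θ + π + D) = b (θ + D) := by rw [add_right_comm]; exact hb _
  have e2 : b (θ + π - D) = b (θ - D) := by rw [add_sub_right_comm]; exact hb _
  have e3 : bF b (θ + π + D) - bF b (θ + π - D) = bF b (θ + D) - bF b (θ - D) := by
    rw [bF_sub h.bump.sm.continuous, bF_sub h.bump.sm.continuous]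
    have := intervalIntegral.integral_comp_add_right (a := θ - D) (b := θ + D) b π
    simp only [hb] at this
    rw [this]
    congr 1 <;> ring
  simp only [Ph, e1, e2, e3]

theorem bF_neg {b : ℝ → ℝ} (hev : ∀ x, b (-x) = b x) (x : ℝ) : bF b (-x) = -bF b x := by
  unfold bF
  have := intervalIntegral.integral_comp_neg (a := 0) (b := x) b
  simp only [hev, neg_zero] at this
  rw [this, ← intervalIntegral.integral_symm]

theorem BPar.dev (h : BPar b C κ Q) (θ : ℝ) : dS b κ Q (-θ) = dS b κ Q θ := by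
  apply zer_congr
  intro D _
  have hev := h.bump.ev
  have e1 : b (-θ + D) = b (θ - D) := by rw [← hev]; congr 1; ring
  have e2 : b (-θ - D) = b (θ + D) := by rw [← hev]; congr 1; ring
  have e3 : bF b (-θ + D) = - bF b (θ - D) := by rw [← bF_neg hev]; congr 1; ring
  have e4 : bF b (-θ - D) = - bF b (θ + D) := by rw [← bF_neg hev]; congr 1; ring
  simp only [Ph, e1, e2, e3, e4]
  ring

/-- derivative of the string equation -/
theorem BPar.deq (h : BPar b C κ Q) (θ : ℝ) :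
    deriv (dS b κ Q) θ * (tan (dS b κ Q θ) ^ 2
        * (2 + κ * (b (θ + dS b κ Q θ) + b (θ - dS b κ Q θ)))
      + tan (dS b κ Q θ) * (κ * (deriv b (θ + dS b κ Q θ) - deriv b (θ - dS b κ Q θ))))
    = κ * (b (θ + dS b κ Q θ) - b (θ - dS b κ Q θ))
      - tan (dS b κ Q θ) * (κ * (deriv b (θ + dS b κ Q θ) + deriv b (θ - dS b κ Q θ))) := by
  have hd : HasDerivAt (dS b κ Q) (deriv (dS b κ Q) θ) θ :=
    ((h.dsm.differentiable (by simp)) θ).hasDerivAt
  have e := Ph_hasDerivAt h.bump.sm κ Q hd (hasDerivAt_id θ) (h.cos_ne (h.dmem θ))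
  have e0 : (fun y => Ph b κ Q (dS b κ Q y, id y)) = fun _ => 0 := by
    funext y
    exact (h.zer y).2.2.1
  rw [e0] at e
  have e1 := e.unique (hasDerivAt_const θ 0)
  simp only [id] at e1
  linarith

theorem BPar.dd_le (h : BPar b C κ Q) (θ : ℝ) : |deriv (dS b κ Q) θ| ≤ 1 / 50 := by
  have e := h.deq θ
  have l := h.derivD (h.dmem θ) θ
  obtain ⟨-, -, -, t1, t2⟩ := bs_trig (h.dmem θ)
  obtain ⟨r1, r2⟩ := bs_sqrt3
  set D := dS b κ Q θ
  set X := tan D ^ 2 * (2 + κ * (b (θ + D) + b (θ - D)))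
      + tan D * (κ * (deriv b (θ + D) - deriv b (θ - D)))
  have t0 : 0 ≤ tan D := le_trans (by positivity) t1
  have t3 : tan D ≤ 1733 / 1000 := t2.trans r2.le
  have a1 := h.kb (θ + D)
  have a2 := h.kb (θ - D)
  have a3 := abs_le.1 (h.kb1 (θ + D))
  have a4 := abs_le.1 (h.kb1 (θ - D))
  have p3 : |tan D * (κ * (deriv b (θ + D) + deriv b (θ - D)))| ≤ 1733 / 1000 * (2 / 1000) := by
    rw [abs_mul, abs_of_nonneg t0]
    apply mul_le_mul t3 _ (abs_nonneg _) (by norm_num)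
    rw [abs_le]
    constructor <;> linarith
  have p4 : |deriv (dS b κ Q) θ * X| ≤ 1 / 100 := by
    rw [e]
    rw [abs_le] at p3 ⊢
    norm_num at p3 ⊢
    constructor <;> linarith
  rw [abs_mul, abs_of_pos (by linarith : 0 < X)] at p4
  nlinarith [abs_nonneg (deriv (dS b κ Q) θ)]

end par

end Pool.Agent.Helper58.Bil
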