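import Pool.Agent.Helper10.Bil.Link

set_option autoImplicit false

/-!
Piece DER-B of MP_190632_an: uni_h4, uni_x, der_h4.
-/

namespace Pool.Agent.Helper58.Bil

open Real Set Filter Topology

theorem db_PP (x Y : ℝ) : PP 0 x Y = 1 := by
  have h : gg x ≠ 0 := by
    unfold gg
    apply ne_of_gt
    apply one_div_pos.2
    by_cases hx : 0 < 10 * x
    · exact add_pos_of_pos_of_nonneg (expNegInvGlue.pos_of_pos hx) (expNegInvGlue.nonneg _)
    · have : 0 < 1 - 10 * x := by linarith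
      exact add_pos_of_nonneg_of_pos (expNegInvGlue.nonneg _) (expNegInvGlue.pos_of_pos this)
  simp [PP, h]

theorem db_zer_congr {G G' : Type} (Φ : ℝ × G → ℝ) (Ψ : ℝ × G' → ℝ) (a b : ℝ) (q : G) (q' : G')
    (h : ∀ D ∈ Icc a b, Φ (D, q) = Ψ (D, q')) : zer Φ a b q = zer Ψ a b q' := by
  have e : (fun D => D ∈ Icc a b ∧ Φ (D, q) = 0) = (fun D => D ∈ Icc a b ∧ Ψ (D, q') = 0) := by
    funext D
    apply propext
    constructor
    · rintro ⟨h1, h2⟩
      exact ⟨h1, by rw [← h D h1]; exact h2⟩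
    · rintro ⟨h1, h2⟩
      exact ⟨h1, by rw [h D h1]; exact h2⟩
  unfold zer
  by_cases h1 : ∃ D ∈ Icc a b, Φ (D, q) = 0
  · have h2 : ∃ D ∈ Icc a b, Ψ (D, q') = 0 := by
      obtain ⟨D, hD, h3⟩ := h1
      exact ⟨D, hD, by rw [← h D hD]; exact h3⟩
    rw [dif_pos h1, dif_pos h2]
    congr 1
  · have h2 : ¬ ∃ D ∈ Icc a b, Ψ (D, q') = 0 := by
      rintro ⟨D, hD, h3⟩
      exact h1 ⟨D, hD, by rw [h D hD]; exact h3⟩
    rw [dif_neg h1, dif_neg h2]

/-- At `s = 0` nothing depends on `x` (`PP 0 x Y = 1`). -/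
theorem uni_x (α t x x' e η : ℝ) :
    XX α (t, 0, x, e, η) = XX α (t, 0, x', e, η) ∧ e4 α (t, 0, x, e, η) = e4 α (t, 0, x', e, η) ∧
    h4 α (t, 0, x, e, η) = h4 α (t, 0, x', e, η) ∧ D1 α (t, 0, x, e, η) = D1 α (t, 0, x', e, η) ∧
    D2 α (t, 0, x, e, η) = D2 α (t, 0, x', e, η) ∧ D3 α (t, 0, x, e, η) = D3 α (t, 0, x', e, η) ∧
    D4 α (t, 0, x, e, η) = D4 α (t, 0, x', e, η) ∧ K1 α (t, 0, x, e, η) = K1 α (t, 0, x', e, η) ∧
    K2 α (t, 0, x, e, η) = K2 α (t, 0, x', e, η) ∧ e2 α (t, 0, x, e, η) = e2 α (t, 0, x', e, η) := by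
  have hD1 : D1 α (t, 0, x, e, η) = D1 α (t, 0, x', e, η) := by
    unfold D1
    apply db_zer_congr
    intro D _
    simp only [F1, db_PP]
  have hK1 : K1 α (t, 0, x, e, η) = K1 α (t, 0, x', e, η) := by
    simp only [K1, hD1]
  have hE2 : ∀ D, E2f α (D, (t, 0, x, e, η)) = E2f α (D, (t, 0, x', e, η)) := by
    intro D
    simp only [E2f, hD1, db_PP]
  have hD2 : D2 α (t, 0, x, e, η) = D2 α (t, 0, x', e, η) := by
    unfold D2
    apply db_zer_congr
    intro D _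
    simp only [F2, db_PP, hK1, hE2]
  have hN2 : N2 α (t, 0, x, e, η) = N2 α (t, 0, x', e, η) := by
    simp only [N2, hD1, hD2]
  have he2 : e2 α (t, 0, x, e, η) = e2 α (t, 0, x', e, η) := by
    simp only [e2, hD2, hE2]
  have hh2 : h2 α (t, 0, x, e, η) = h2 α (t, 0, x', e, η) := by
    simp only [h2, db_PP, hK1, hD2]
  have hD3 : D3 α (t, 0, x, e, η) = D3 α (t, 0, x', e, η) := by
    unfold D3
    apply db_zer_congr
    intro D _
    simp only [F3, db_PP, he2, hh2]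
  have hK2 : K2 α (t, 0, x, e, η) = K2 α (t, 0, x', e, η) := by
    simp only [K2, hD3, he2, hh2]
  have hE4 : ∀ D, E4f α (D, (t, 0, x, e, η)) = E4f α (D, (t, 0, x', e, η)) := by
    intro D
    simp only [E4f, hD3, hN2, he2, db_PP]
  have hD4 : D4 α (t, 0, x, e, η) = D4 α (t, 0, x', e, η) := by
    unfold D4
    apply db_zer_congr
    intro D _
    simp only [F4, db_PP, hK2, hE4]
  refine ⟨?_, ?_, ?_, hD1, hD2, hD3, hD4, hK1, hK2, he2⟩
  · simp only [XX, hN2, hD3, hD4]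
  · simp only [e4, hD4, hE4]
  · simp only [h4, db_PP, hK2, hD4]

/-- the explicit slope at `s = 0` -/
noncomputable def dbM (α : ℝ) (q : QQ) : ℝ :=
  sin (α + q.1 * D1 α q) * sin (al2 α + q.1 * D3 α q)
    / (sin (al2 α + q.1 * D2 α q) * sin (α + q.1 * D4 α q))

theorem db_h4 {α x e : ℝ} (hL : LinkBase α x e) :
    ∀ᶠ q in 𝓝 (q0 x e), q.2.1 = 0 → h4 α q = q.2.2.2.2 * dbM α q := by
  filter_upwards [hL.rel] with q hq hs
  obtain ⟨⟨r1, r2, r3, r4, r5, r6⟩, ⟨t1, t2, t3, t4, t5, t6⟩⟩ := hq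
  rw [hs] at r1 t1
  rw [db_PP] at r1 t1
  have hK1 : K1 α q = -1 + 2 * (q.2.2.2.2 * sin (α + q.1 * D1 α q)) := by linarith
  have hh2 : h2 α q = -(q.2.2.2.2 * sin (α + q.1 * D1 α q)) / sin (al2 α + q.1 * D2 α q) := by
    have : h2 α q = (- PP q.2.1 q.2.2.1 (D1 α q + 2 * D2 α q) - K1 α q)
      / (2 * sin (al2 α + q.1 * D2 α q)) := rfl
    rw [this, hs, db_PP, hK1, ← mul_div_mul_left _ (sin (al2 α + q.1 * D2 α q))
      (two_ne_zero (α := ℝ))]
    congr 1
    ring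
  have hK2 : K2 α q = 1 + 2 * (h2 α q * sin (al2 α + q.1 * D3 α q)) := by linarith
  have hh4 : h4 α q = -(h2 α q * sin (al2 α + q.1 * D3 α q)) / sin (α + q.1 * D4 α q) := by
    have : h4 α q = (PP q.2.1 q.2.2.1 (N2 α q + D3 α q + 2 * D4 α q) - K2 α q)
      / (2 * sin (α + q.1 * D4 α q)) := rfl
    rw [this, hs, db_PP, hK2, ← mul_div_mul_left _ (sin (α + q.1 * D4 α q))
      (two_ne_zero (α := ℝ))]
    congr 1
    ring
  rw [hh4, hh2, dbM]
  rw [div_mul_eq_mul_div, ← neg_div, div_div]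
  rw [mul_div_assoc']
  congr 1
  ring

theorem uni_h4 {α : ℝ} (h1 : 0 < α) (h2 : α < π / 2) (x e : ℝ) :
    ∀ᶠ q in 𝓝 (q0 x e), q.2.1 = 0 → q.2.2.2.2 = 0 → h4 α q = 0 := by
  filter_upwards [db_h4 (link_base h1 h2 x e)] with q hq hs hη
  rw [hq hs, hη, zero_mul]

theorem db_hasDerivAt {m : ℝ → ℝ} (hm : ContinuousAt m 0) :
    HasDerivAt (fun t => t * m t) (m 0) 0 := by
  rw [hasDerivAt_iff_tendsto_slope]
  have h1 : Tendsto m (𝓝[≠] 0) (𝓝 (m 0)) := hm.tendsto.mono_left nhdsWithin_le_nhds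
  apply h1.congr'
  filter_upwards [self_mem_nhdsWithin] with t ht
  have ht' : t ≠ 0 := ht
  rw [slope_def_field]
  field_simp
  ring

/-- slope contraction. For small `t`: `∂h4/∂η (t,0,x,e,0) = (sin d₁ᶠ/sin d₂ᶠ)(sin d₂ˢ/sin d₁ˢ)`. -/
theorem der_h4 {α : ℝ} (h1 : 0 < α) (h2 : α < π / 2) (x e : ℝ) :
    deriv (fun t => deriv (fun η => h4 α (t, 0, x, e, η)) 0) 0 = - gam α := by
  have hL := link_base h1 h2 x e
  have hsα : 0 < sin α := sin_pos_of_pos_of_lt_pi h1 (by linarith [pi_pos])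
  have hs2 : 0 < sin (al2 α) := by
    unfold al2
    exact sin_pos_of_pos_of_lt_pi (by linarith) (by linarith [pi_pos])
  -- continuity of the `D i` near the base point
  have c1 : ∀ᶠ q in 𝓝 (q0 x e), ContinuousAt (D1 α) q := by
    filter_upwards [hL.sD1] with q hq using hq.continuousAt
  have c2 : ∀ᶠ q in 𝓝 (q0 x e), ContinuousAt (D2 α) q := by
    filter_upwards [hL.sD2] with q hq using hq.continuousAt
  have c3 : ∀ᶠ q in 𝓝 (q0 x e), ContinuousAt (D3 α) q := by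
    filter_upwards [hL.sD3] with q hq using hq.continuousAt
  have c4 : ∀ᶠ q in 𝓝 (q0 x e), ContinuousAt (D4 α) q := by
    filter_upwards [hL.sD4] with q hq using hq.continuousAt
  have hc0 : ContinuousAt (fun q : QQ => q.1) (q0 x e) := continuousAt_fst
  have z2 : ∀ᶠ q in 𝓝 (q0 x e), sin (al2 α + q.1 * D2 α q) ≠ 0 := by
    have : ContinuousAt (fun q : QQ => sin (al2 α + q.1 * D2 α q)) (q0 x e) :=
      (Real.continuous_sin.continuousAt).comp
        (continuousAt_const.add (hc0.mul c2.self_of_nhds))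
    apply this.eventually_ne
    simp [q0, hs2.ne']
  have z4 : ∀ᶠ q in 𝓝 (q0 x e), sin (α + q.1 * D4 α q) ≠ 0 := by
    have : ContinuousAt (fun q : QQ => sin (α + q.1 * D4 α q)) (q0 x e) :=
      (Real.continuous_sin.continuousAt).comp
        (continuousAt_const.add (hc0.mul c4.self_of_nhds))
    apply this.eventually_ne
    simp [q0, hsα.ne']
  have cM : ∀ᶠ q in 𝓝 (q0 x e), ContinuousAt (dbM α) q := by
    filter_upwards [c1, c2, c3, c4, z2, z4] with q k1 k2 k3 k4 y2 y4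
    have hc : ContinuousAt (fun q : QQ => q.1) q := continuousAt_fst
    unfold dbM
    apply ContinuousAt.div
    · exact ((Real.continuous_sin.continuousAt).comp (continuousAt_const.add (hc.mul k1))).mul
        ((Real.continuous_sin.continuousAt).comp (continuousAt_const.add (hc.mul k3)))
    · exact ((Real.continuous_sin.continuousAt).comp (continuousAt_const.add (hc.mul k2))).mul
        ((Real.continuous_sin.continuousAt).comp (continuousAt_const.add (hc.mul k4)))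
    · exact mul_ne_zero y2 y4
  -- the path `t ↦ (t,0,x,e,0)`
  have hpath : ContinuousAt (fun t : ℝ => ((t, 0, x, e, 0) : QQ)) 0 := by fun_prop
  have hp0 : (fun t : ℝ => ((t, 0, x, e, 0) : QQ)) 0 = q0 x e := rfl
  have key : ∀ᶠ t in 𝓝 (0 : ℝ), deriv (fun η => h4 α (t, 0, x, e, η)) 0
      = dbM α (t, 0, x, e, 0) := by
    have ev := (db_h4 hL).eventually_nhds.and cM
    have ev2 : ∀ᶠ t in 𝓝 (0 : ℝ), (∀ᶠ q in 𝓝 ((t, 0, x, e, 0) : QQ),
        q.2.1 = 0 → h4 α q = q.2.2.2.2 * dbM α q) ∧ ContinuousAt (dbM α) (t, 0, x, e, 0) := by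
      exact hpath.tendsto.eventually ev
    filter_upwards [ev2] with t ht
    obtain ⟨hA, hB⟩ := ht
    have hη : ContinuousAt (fun η : ℝ => ((t, 0, x, e, η) : QQ)) 0 := by fun_prop
    have hm : ContinuousAt (fun η : ℝ => dbM α (t, 0, x, e, η)) 0 :=
      ContinuousAt.comp (f := fun η : ℝ => ((t, 0, x, e, η) : QQ)) (g := dbM α) hB hη
    have hd := db_hasDerivAt hm
    have hev : (fun η => h4 α (t, 0, x, e, η)) =ᶠ[𝓝 0] fun η => η * dbM α (t, 0, x, e, η) := by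
      have := hη.tendsto.eventually hA
      filter_upwards [this] with η h
      exact h rfl
    rw [hev.deriv_eq]
    exact hd.deriv
  have key' : (fun t => deriv (fun η => h4 α (t, 0, x, e, η)) 0) =ᶠ[𝓝 0]
      fun t => dbM α (t, 0, x, e, 0) := key
  rw [key'.deriv_eq]
  -- derivative of `t ↦ α + t D`
  have hD : ∀ (a : ℝ) (D : QQ → ℝ), ContinuousAt D (q0 x e) →
      HasDerivAt (fun t : ℝ => sin (a + t * D (t, 0, x, e, 0))) (cos a * D (q0 x e)) 0 := by
    intro a D hDc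
    have hm : ContinuousAt (fun t : ℝ => D (t, 0, x, e, 0)) 0 :=
      ContinuousAt.comp (f := fun t : ℝ => ((t, 0, x, e, 0) : QQ)) (g := D)
        hDc hpath
    have hd := (db_hasDerivAt hm).const_add a
    have := hd.sin
    simpa [q0] using this
  have e1 := hD α (D1 α) c1.self_of_nhds
  have e2 := hD (al2 α) (D2 α) c2.self_of_nhds
  have e3 := hD (al2 α) (D3 α) c3.self_of_nhds
  have e4 := hD α (D4 α) c4.self_of_nhds
  have hnum := e1.mul e3
  have hden := e2.mul e4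
  have hne : ((fun t : ℝ => sin (al2 α + t * D2 α (t, 0, x, e, 0))) *
        fun t : ℝ => sin (α + t * D4 α (t, 0, x, e, 0))) 0 ≠ 0 := by
    simp only [Pi.mul_apply, zero_mul, add_zero]
    exact mul_ne_zero hs2.ne' hsα.ne'
  have hfin := hnum.div hden hne
  have hfun : (fun t : ℝ => dbM α (t, 0, x, e, 0)) =
      ((fun t : ℝ => sin (α + t * D1 α (t, 0, x, e, 0))) *
        fun t : ℝ => sin (al2 α + t * D3 α (t, 0, x, e, 0))) /
      ((fun t : ℝ => sin (al2 α + t * D2 α (t, 0, x, e, 0))) *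
        fun t : ℝ => sin (α + t * D4 α (t, 0, x, e, 0))) := by
    funext t
    rfl
  rw [hfun, hfin.deriv]
  rw [hL.vD1, hL.vD2, hL.vD3, hL.vD4, gam]
  simp only [Pi.mul_apply, zero_mul, add_zero, tan_eq_sin_div_cos]
  have hcα : 0 < cos α := cos_pos_of_mem_Ioo ⟨by linarith [pi_pos], h2⟩
  have hc2 : 0 < cos (al2 α) := by
    unfold al2
    exact cos_pos_of_mem_Ioo ⟨by linarith [pi_pos], by linarith⟩
  field_simp
  ring

end Pool.Agent.Helper58.Bil
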